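import Pool.Agent.Lib_helper7.TC.Defs

/-!
# Block TC13: sums over affine space of homogeneous functions
-/

set_option autoImplicit false

namespace Pool.Agent.TC

/-- the sum over the affine space of an invariant function is a sum over the projective space -/
theorem tc13_sum {F : Type*} [Field F] [Fintype F] [DecidableEq F] {M : ℕ} {A : Type*}
    [AddCommMonoid A] (f : (Fin M → F) → A) (h0 : f 0 = 0)
    (hf : ∀ (a : F) (x : Fin M → F), a ≠ 0 → f (a • x) = f x)
    [Fintype (Projectivization F (Fin M → F))] :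
    ∑ x, f x = (Fintype.card F - 1) • ∑ P : Projectivization F (Fin M → F), f P.rep := by
  classical
  have h1 : ∑ x, f x = ∑ x : {x : Fin M → F // x ≠ 0}, f x := by
    rw [← Finset.sum_subtype (Finset.univ.filter fun x : Fin M → F => x ≠ 0) (by simp) f]
    rw [Finset.sum_filter_of_ne]
    intro x _ hx h
    exact hx (h ▸ h0)
  rw [h1, ← Finset.sum_fiberwise Finset.univ
    (fun x : {x : Fin M → F // x ≠ 0} => Projectivization.mk F x.1 x.2), Finset.smul_sum]
  refine Finset.sum_congr rfl fun P _ => ?_
  have h2 : ∀ x ∈ Finset.univ.filter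
      (fun x : {x : Fin M → F // x ≠ 0} => Projectivization.mk F x.1 x.2 = P), f x = f P.rep := by
    intro x hx
    rw [Finset.mem_filter] at hx
    have h3 : Projectivization.mk F x.1 x.2 = Projectivization.mk F P.rep P.rep_nonzero := by
      rw [hx.2, Projectivization.mk_rep]
    rw [Projectivization.mk_eq_mk_iff] at h3
    obtain ⟨a, ha⟩ := h3
    rw [← ha]
    exact hf a P.rep a.ne_zero
  rw [Finset.sum_congr rfl h2, Finset.sum_const]
  congr 1
  rw [← Fintype.card_units (α := F), ← Finset.card_univ (α := Fˣ)]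
  symm
  apply Finset.card_bij (fun (a : Fˣ) _ => (⟨(a : F) • P.rep, smul_ne_zero a.ne_zero P.rep_nonzero⟩ :
    {x : Fin M → F // x ≠ 0}))
  · intro a _
    rw [Finset.mem_filter]
    refine ⟨Finset.mem_univ _, ?_⟩
    conv_rhs => rw [← Projectivization.mk_rep P]
    rw [Projectivization.mk_eq_mk_iff]
    exact ⟨a, rfl⟩
  · intro a _ b _ hab
    have h4 : (a : F) • P.rep = (b : F) • P.rep := congrArg Subtype.val hab
    exact Units.ext (smul_left_injective F P.rep_nonzero h4)
  · intro x hx
    rw [Finset.mem_filter] at hx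
    have h3 : Projectivization.mk F x.1 x.2 = Projectivization.mk F P.rep P.rep_nonzero := by
      rw [hx.2, Projectivization.mk_rep]
    rw [Projectivization.mk_eq_mk_iff] at h3
    obtain ⟨a, ha⟩ := h3
    exact ⟨a, Finset.mem_univ _, Subtype.ext ha⟩

theorem tc13_pr {F : Type*} [Field F] [Fintype F] [DecidableEq F] {k : Type*} [NormedField k]
    [IsUltrametricDist k] [CharZero k] {M : ℕ} (f : (Fin M → F) → k) (h0 : f 0 = 0)
    (hf : ∀ (a : F) (x : Fin M → F), a ≠ 0 → f (a • x) = f x)
    (h1 : ∀ x, f x = 0 ∨ ‖f x - 1‖ < 1) :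
    ∃ c : ℕ, (Fintype.card F - 1) * c = Nat.card {x // f x ≠ 0} ∧
      ∃ t : k, ((Fintype.card F : k) - 1) * t = ∑ x, f x ∧ ‖t - c‖ < 1 := by
  classical
  let _ : Fintype (Projectivization F (Fin M → F)) := Fintype.ofFinite _
  refine ⟨∑ P : Projectivization F (Fin M → F), if f P.rep ≠ 0 then 1 else 0, ?_,
    ∑ P : Projectivization F (Fin M → F), f P.rep, ?_, ?_⟩
  · have h2 := tc13_sum (fun x : Fin M → F => if f x ≠ 0 then (1 : ℕ) else 0) (by simp [h0])
      (fun a x ha => by simp only [hf a x ha])
    rw [smul_eq_mul] at h2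
    rw [← h2, Nat.card_eq_fintype_card, Fintype.card_subtype, Finset.card_filter]
  · rw [tc13_sum f h0 hf, nsmul_eq_mul, Nat.cast_sub Fintype.card_pos, Nat.cast_one]
  · have h3 : ∑ P : Projectivization F (Fin M → F), f P.rep -
        ((∑ P : Projectivization F (Fin M → F), if f P.rep ≠ 0 then 1 else 0 : ℕ) : k) =
        ∑ P : Projectivization F (Fin M → F), (f P.rep - if f P.rep ≠ 0 then 1 else 0) := by
      rw [Finset.sum_sub_distrib]
      push_cast
      rfl
    rw [h3]
    have h4 : ∀ P : Projectivization F (Fin M → F),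
        ‖f P.rep - if f P.rep ≠ 0 then 1 else 0‖ < 1 := by
      intro P
      by_cases h : f P.rep = 0
      · simp [h]
      · rw [if_pos h]
        exact (h1 P.rep).resolve_left h
    by_cases hne : (Finset.univ : Finset (Projectivization F (Fin M → F))).Nonempty
    · obtain ⟨P, _, hP⟩ := IsUltrametricDist.exists_norm_finsetSum_le_of_nonempty hne
        (fun P : Projectivization F (Fin M → F) => f P.rep - if f P.rep ≠ 0 then 1 else 0)
      exact hP.trans_lt (h4 P)
    · rw [Finset.not_nonempty_iff_eq_empty] at hne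
      rw [hne]
      simp

end Pool.Agent.TC
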