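import Pool.Agent.Lib_helper69.TC.TC10

/-!
# Block TC11: the number of rational points of the complement of an arrangement
-/

set_option autoImplicit false

namespace Pool.Agent.TC

open Equiv.Perm Nat

/-- the permutation matrix -/
def tc11_P {n : ℕ} (g : Equiv.Perm (Fin n)) : Matrix (Fin n) (Fin n) ℤ :=
  Matrix.of fun a b : Fin n => if g a = b then (1 : ℤ) else 0

/-- the principal minors -/
def tc11_m {n : ℕ} (g : Equiv.Perm (Fin n)) (s : Finset (Fin n)) : ℤ :=
  ((tc11_P g).submatrix (Subtype.val : s → Fin n) (Subtype.val : s → Fin n)).det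

theorem tc11_zero {n : ℕ} (g : Equiv.Perm (Fin n)) (s : Finset (Fin n))
    (hs : ¬ ∀ i ∈ s, g i ∈ s) : tc11_m g s = 0 := by
  push Not at hs
  obtain ⟨i, hi, hgi⟩ := hs
  apply Matrix.det_eq_zero_of_row_eq_zero ⟨i, hi⟩
  intro j
  show (if g i = (j : Fin n) then (1 : ℤ) else 0) = 0
  rw [if_neg]
  intro h
  exact hgi (h ▸ j.2)

/-- the alternating sum of the minors in a stable set -/
theorem tc11_Z {n : ℕ} (g : Equiv.Perm (Fin n)) (Z : Finset (Fin n)) (hZ : ∀ i ∈ Z, g i ∈ Z) :
    ∑ s ∈ Z.powerset, (-1) ^ s.card * tc11_m g s = if Z = ∅ then 1 else 0 := by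
  classical
  set PP : Fin n → Fin n → ℤ := fun i j => tc11_P g i j with hPP
  set m1 : Fin n → Fin n → ℤ := fun i => if i ∈ Z then -(PP i) else 0 with hm1
  set m2 : Fin n → Fin n → ℤ := fun i j => (1 : Matrix (Fin n) (Fin n) ℤ) i j with hm2
  have hD := (Matrix.detRowAlternating : (Fin n → ℤ) [⋀^Fin n]→ₗ[ℤ] ℤ).map_add_univ m1 m2
  have h1 : ∀ s : Finset (Fin n), ¬ s ⊆ Z →
      (Matrix.detRowAlternating : (Fin n → ℤ) [⋀^Fin n]→ₗ[ℤ] ℤ) (s.piecewise m1 m2) = 0 := by
    intro s hs
    rw [Finset.not_subset] at hs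
    obtain ⟨i, hi, hiZ⟩ := hs
    apply (Matrix.detRowAlternating : (Fin n → ℤ) [⋀^Fin n]→ₗ[ℤ] ℤ).map_coord_zero i
    rw [Finset.piecewise_eq_of_mem _ _ _ hi, hm1]
    simp only
    rw [if_neg hiZ]
  have h2 : ∀ s : Finset (Fin n), s ⊆ Z →
      (Matrix.detRowAlternating : (Fin n → ℤ) [⋀^Fin n]→ₗ[ℤ] ℤ) (s.piecewise m1 m2) =
        (-1) ^ s.card * tc11_m g s := by
    intro s hs
    have h3 : s.piecewise m1 m2 = fun i => (if i ∈ s then (-1 : ℤ) else 1) •
        s.piecewise PP m2 i := by
      funext i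
      by_cases hi : i ∈ s
      · rw [Finset.piecewise_eq_of_mem _ _ _ hi, Finset.piecewise_eq_of_mem _ _ _ hi, hm1]
        simp only
        rw [if_pos (hs hi), if_pos hi]
        simp
      · rw [Finset.piecewise_eq_of_notMem _ _ _ hi, Finset.piecewise_eq_of_notMem _ _ _ hi,
          if_neg hi]
        simp
    rw [h3, AlternatingMap.map_smul_univ]
    have h4 : ∏ i, (if i ∈ s then (-1 : ℤ) else 1) = (-1) ^ s.card := by
      rw [Finset.prod_ite_mem, Finset.univ_inter, Finset.prod_const]
    rw [h4, smul_eq_mul]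
    congr 1
    exact Matrix.det_piecewise_one_eq_submatrix_det (tc11_P g) s
  have h5 : ∑ s : Finset (Fin n),
      (Matrix.detRowAlternating : (Fin n → ℤ) [⋀^Fin n]→ₗ[ℤ] ℤ) (s.piecewise m1 m2) =
      ∑ s ∈ Z.powerset, (-1) ^ s.card * tc11_m g s := by
    rw [← Finset.sum_subset (Finset.subset_univ Z.powerset)]
    · refine Finset.sum_congr rfl fun s hs => ?_
      exact h2 s (Finset.mem_powerset.mp hs)
    · intro s _ hs
      exact h1 s (fun h => hs (Finset.mem_powerset.mpr h))
  rw [← h5, ← hD]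
  have h7 : (Matrix.detRowAlternating : (Fin n → ℤ) [⋀^Fin n]→ₗ[ℤ] ℤ) (m1 + m2) =
      Matrix.det (Matrix.of m1 + (1 : Matrix (Fin n) (Fin n) ℤ)) := rfl
  rw [h7]
  split_ifs with hE
  · have : Matrix.of m1 + (1 : Matrix (Fin n) (Fin n) ℤ) = 1 := by
      ext i j
      rw [Matrix.add_apply, Matrix.of_apply, hm1]
      simp [hE]
    rw [this, Matrix.det_one]
  · obtain ⟨z, hz⟩ := Finset.nonempty_iff_ne_empty.mpr hE
    rw [← Matrix.exists_mulVec_eq_zero_iff]
    refine ⟨fun j => if j ∈ Z then 1 else 0, ?_, ?_⟩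
    · intro h
      have := congrFun h z
      simp [hz] at this
    · rw [Matrix.add_mulVec, Matrix.one_mulVec]
      funext i
      rw [Pi.add_apply, Pi.zero_apply, Matrix.mulVec, dotProduct]
      simp only [Matrix.of_apply]
      by_cases hi : i ∈ Z
      · have h6 : ∀ j, m1 i j * (if j ∈ Z then (1 : ℤ) else 0) =
            if g i = j then -1 else 0 := by
          intro j
          rw [hm1]
          simp only
          rw [if_pos hi]
          show -(if g i = j then (1 : ℤ) else 0) * _ = _
          split_ifs with k1 k2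
          · simp
          · exact absurd (k1 ▸ hZ i hi) k2
          · simp
          · simp
        simp only [h6]
        rw [Finset.sum_ite_eq, if_pos (Finset.mem_univ _), if_pos hi]
        norm_num
      · have h6 : ∀ j, m1 i j * (if j ∈ Z then (1 : ℤ) else 0) = 0 := by
          intro j
          rw [hm1]
          simp only
          rw [if_neg hi]
          simp
        simp only [h6]
        rw [Finset.sum_const_zero, if_neg hi, add_zero]

section

variable {F κ : Type*} [Field F] [Field κ] [Algebra F κ]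

/-- at most `M` of the forms are independent -/
theorem tc11_indep {n M : ℕ} (l : Fin n → Fin M → κ) (hn : M ≤ n)
    (hgen : ∀ s : Fin M ↪ Fin n, (Matrix.of fun i j => l (s i) j).det ≠ 0) (s : Finset (Fin n))
    (hs : s.card ≤ M) : LinearIndependent κ fun i : s => l i := by
  obtain ⟨T, hsT, hT⟩ := Finset.exists_superset_card_eq hs (by simpa using hn)
  have h1 := hgen ((T.orderEmbOfFin hT).toEmbedding)
  have h2 : LinearIndependent κ (fun i : Fin M => l (T.orderEmbOfFin hT i)) :=
    Matrix.linearIndependent_rows_of_det_ne_zero h1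
  have h3 : (fun i : s => l i) = (fun i : Fin M => l (T.orderEmbOfFin hT i)) ∘
      (fun i : s => (T.orderIsoOfFin hT).symm ⟨i, hsT i.2⟩) := by
    funext i
    simp only [Function.comp_apply]
    congr 1
    have := (T.orderIsoOfFin hT).apply_symm_apply ⟨i, hsT i.2⟩
    rw [← Finset.coe_orderIsoOfFin_apply, this]
  rw [h3]
  apply h2.comp
  intro i j hij
  have h4 := (T.orderIsoOfFin hT).symm.injective hij
  exact Subtype.ext (Subtype.mk.inj h4)

/-- a set of more than `M` forms has only the trivial zero -/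
theorem tc11_big {n M : ℕ} (l : Fin n → Fin M → κ)
    (hgen : ∀ s : Fin M ↪ Fin n, (Matrix.of fun i j => l (s i) j).det ≠ 0) (s : Finset (Fin n))
    (hs : M ≤ s.card) (x : Fin M → F)
    (hx : ∀ i ∈ s, ∑ j, l i j * algebraMap F κ (x j) = 0) : x = 0 := by
  obtain ⟨T, hTs, hT⟩ := Finset.exists_subset_card_eq hs
  have h1 := hgen ((T.orderEmbOfFin hT).toEmbedding)
  have h2 : (Matrix.of fun i j => l (T.orderEmbOfFin hT i) j).mulVec
      (fun j => algebraMap F κ (x j)) = 0 := by
    funext i
    exact hx _ (hTs (Finset.orderEmbOfFin_mem T hT i))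
  have h3 := Matrix.eq_zero_of_mulVec_eq_zero h1 h2
  funext j
  have h4 := congrFun h3 j
  simp only [Pi.zero_apply] at h4
  exact (map_eq_zero _).mp h4

end

theorem tc11_pr {F κ : Type*} [Field F] [Fintype F] [DecidableEq F] [Field κ] [Algebra F κ]
    [DecidableEq κ]
    (hF : ∀ c : κ, c ^ Fintype.card F = c → c ∈ Set.range (algebraMap F κ)) {n M : ℕ}
    (l : Fin n → Fin M → κ) (g : Equiv.Perm (Fin n))
    (hl : ∀ i j, l (g i) j = l i j ^ Fintype.card F) (hn : M ≤ n)
    (hgen : ∀ s : Fin M ↪ Fin n, (Matrix.of fun i j => l (s i) j).det ≠ 0) :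
    (Fintype.card {x : Fin M → F // ∀ i, ∑ j, l i j * algebraMap F κ (x j) ≠ 0} : ℤ) =
      ∑ s : Finset (Fin n), (-1) ^ s.card *
        ((Matrix.of fun a b : Fin n => if g a = b then (1 : ℤ) else 0).submatrix
          (Subtype.val : s → Fin n) (Subtype.val : s → Fin n)).det *
        (Fintype.card F : ℤ) ^ (M - s.card) := by
  classical
  set L : Fin n → (Fin M → F) → κ := fun i x => ∑ j, l i j * algebraMap F κ (x j) with hL
  set Z : (Fin M → F) → Finset (Fin n) := fun x => Finset.univ.filter fun i => L i x = 0 with hZd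
  have hfrob : ∀ (i : Fin n) (x : Fin M → F), L (g i) x = L i x ^ Fintype.card F := by
    intro i x
    obtain ⟨p, hp⟩ := CharP.exists F
    have := hp
    obtain ⟨e, hpr, he⟩ := FiniteField.card F p
    have : Fact p.Prime := ⟨hpr⟩
    have : CharP κ p := charP_of_injective_algebraMap (algebraMap F κ).injective p
    rw [hL]
    simp only
    rw [he, sum_pow_char_pow]
    refine Finset.sum_congr rfl fun j _ => ?_
    rw [hl, mul_pow, ← map_pow, he]
    congr 2
    rw [← he]
    exact (FiniteField.pow_card (x j)).symm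
  have hZs : ∀ x, ∀ i ∈ Z x, g i ∈ Z x := by
    intro x i hi
    rw [hZd] at hi ⊢
    simp only [Finset.mem_filter, Finset.mem_univ, true_and] at hi ⊢
    rw [hfrob, hi, zero_pow Fintype.card_ne_zero]
  have h1 : (Fintype.card {x : Fin M → F // ∀ i, L i x ≠ 0} : ℤ) =
      ∑ x : Fin M → F, if Z x = ∅ then (1 : ℤ) else 0 := by
    rw [Fintype.card_subtype, Finset.card_filter]
    push_cast
    refine Finset.sum_congr rfl fun x _ => ?_
    have : (∀ i, L i x ≠ 0) ↔ Z x = ∅ := by
      rw [hZd]
      simp only [Finset.filter_eq_empty_iff, Finset.mem_univ, true_implies]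
    simp only [this]
  have h2 : ∑ x : Fin M → F, (if Z x = ∅ then (1 : ℤ) else 0) =
      ∑ x : Fin M → F, ∑ s : Finset (Fin n),
        if s ⊆ Z x then (-1) ^ s.card * tc11_m g s else 0 := by
    refine Finset.sum_congr rfl fun x _ => ?_
    rw [← tc11_Z g (Z x) (hZs x), ← Finset.sum_filter]
    congr 1
    ext s
    simp
  have h3 : ∀ s : Finset (Fin n), ∑ x : Fin M → F,
      (if s ⊆ Z x then (-1) ^ s.card * tc11_m g s else 0) =
      (-1) ^ s.card * tc11_m g s * (Fintype.card F : ℤ) ^ (M - s.card) := by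
    intro s
    rw [← Finset.sum_filter, Finset.sum_const, nsmul_eq_mul, mul_comm]
    by_cases hst : ∀ i ∈ s, g i ∈ s
    · congr 1
      have h4 : ∀ x, s ⊆ Z x ↔ ∀ i ∈ s, ∑ j, l i j * algebraMap F κ (x j) = 0 := by
        intro x
        rw [hZd]
        simp only [Finset.subset_iff, Finset.mem_filter, Finset.mem_univ, true_and]
        rfl
      have h5 : (Finset.univ.filter fun x : Fin M → F => s ⊆ Z x).card =
          Fintype.card {x : Fin M → F // ∀ i ∈ s, ∑ j, l i j * algebraMap F κ (x j) = 0} := by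
        rw [Fintype.card_subtype]
        congr 1
        ext x
        simp only [Finset.mem_filter, Finset.mem_univ, true_and]
        exact h4 x
      rw [h5]
      rcases le_total s.card M with hsM | hsM
      · have h6 := tc10_pr hF l g hl s hst hsM (tc11_indep l hn hgen s hsM)
        rw [h6]
        push_cast
        rfl
      · have h7 : M - s.card = 0 := Nat.sub_eq_zero_of_le hsM
        rw [h7, pow_zero]
        have h8 : Fintype.card {x : Fin M → F // ∀ i ∈ s, ∑ j, l i j * algebraMap F κ (x j) = 0} =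
            1 := by
          rw [Fintype.card_eq_one_iff]
          refine ⟨⟨0, fun i _ => by simp⟩, fun y => Subtype.ext ?_⟩
          exact tc11_big l hgen s hsM y.1 y.2
        rw [h8]
        norm_num
    · rw [tc11_zero g s hst]
      simp
  have h9 : (Fintype.card {x : Fin M → F // ∀ i, ∑ j, l i j * algebraMap F κ (x j) ≠ 0} : ℤ) =
      Fintype.card {x : Fin M → F // ∀ i, L i x ≠ 0} := rfl
  rw [h9, h1, h2, Finset.sum_comm, Finset.sum_congr rfl fun s _ => h3 s]
  rfl

end Pool.Agent.TC
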